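import Pool.Agent.MnR.Fin

/-!
Infinite sets of positive integers in which every number has at most `g` representations
`n = a + b`, `a ≤ b`, and with at least `N ^ (16 g ^ 2 / ((4 g + 1) (8 g + 1)) - ε)` elements up to
`N`, for all large `N`.

Proof.  A prime `p` of class `k` gets the number with `k` digits: for `j < s k` the digit is
`floor (D_j * frac (Q_j * α_j * log p))` with independent random multipliers `α_j` (Ruzsa's digits of
logarithms, one multiplier for every digit), for `s k ≤ j < k` the digit is random.  A sum of two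
such numbers determines the classes and the sum of the digits at every position, and the positions
below `s l` show that the products of the two primes are close together.  For `g + 1` pairs with
the same sum, different first and different second members, the probability of a coincidence at one
position is bounded by a trigonometric product (`Pool.Agent.MnR.probX`, `posC`, `posP`), unless
there is a small linear relation between the logarithms of the first members; such tuples are
counted separately (`Pool.Agent.MnR.count_T`).  For suitable choices less than half of the primes of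
every class take part in a `(g + 1)`-fold coincidence; they are removed.
-/

set_option autoImplicit false

namespace Pool.Agent.Results.MP_5d2e8b_nt.ManyRepresentations

theorem result : ∀ g : ℕ, 1 ≤ g →
    (∀ ε : ℝ, 0 < ε → ∃ A : Set ℕ, (∀ a ∈ A, 0 < a) ∧
      (∀ n : ℕ, {x : ℕ × ℕ | x.1 ∈ A ∧ x.2 ∈ A ∧ x.1 ≤ x.2 ∧ x.1 + x.2 = n}.ncard ≤ g) ∧
      ∃ N₀ : ℕ, ∀ N : ℕ, N₀ ≤ N →
        (N : ℝ) ^ (16 * (g : ℝ) ^ 2 / ((4 * g + 1) * (8 * g + 1)) - ε) ≤
          ((A ∩ Set.Icc 1 N).ncard : ℝ)) ∧
    (∀ t ε : ℝ, 0 < t → t < 1 → t ^ 3 ≤ g * (1 - t) * (1 + t) ^ 2 → 0 < ε →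
      ∃ A : Set ℕ, (∀ a ∈ A, 0 < a) ∧
      (∀ n : ℕ, {x : ℕ × ℕ | x.1 ∈ A ∧ x.2 ∈ A ∧ x.1 ≤ x.2 ∧ x.1 + x.2 = n}.ncard ≤ g) ∧
      ∃ N₀ : ℕ, ∀ N : ℕ, N₀ ≤ N →
        (N : ℝ) ^ (t ^ 2 / (1 + t) - ε) ≤ ((A ∩ Set.Icc 1 N).ncard : ℝ)) := by
  intro g hg
  refine ⟨fun ε hε => ?_, fun t ε h0 h1 h2 hε => Pool.Agent.MnR.main hg h0 h1 h2 hε⟩
  have hg' : (1 : ℝ) ≤ g := by exact_mod_cast hg
  have h4 : (0 : ℝ) < 4 * g + 1 := by linarith
  have h8 : (0 : ℝ) < 8 * g + 1 := by linarith
  have e : (16 * (g : ℝ) ^ 2 / ((4 * g + 1) * (8 * g + 1))) =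
      (4 * g / (4 * g + 1)) ^ 2 / (1 + 4 * g / (4 * g + 1)) := by
    have : (1 : ℝ) + 4 * g / (4 * g + 1) = (8 * g + 1) / (4 * g + 1) := by
      field_simp
      ring
    rw [this]
    field_simp
    ring
  rw [e]
  refine Pool.Agent.MnR.main hg (div_pos (by linarith) h4) ?_ ?_ hε
  · rw [div_lt_one h4]
    linarith
  · have e1 : (1 : ℝ) - 4 * g / (4 * g + 1) = 1 / (4 * g + 1) := by
      field_simp
      ring
    have e2 : (1 : ℝ) + 4 * g / (4 * g + 1) = (8 * g + 1) / (4 * g + 1) := by
      field_simp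
      ring
    rw [e1, e2, div_pow, div_pow, show (g : ℝ) * (1 / (4 * g + 1)) * ((8 * g + 1) ^ 2 / (4 * g + 1) ^ 2) =
      (g * (8 * g + 1) ^ 2) / (4 * g + 1) ^ 3 by
        field_simp]
    apply div_le_div_of_nonneg_right _ (by positivity)
    nlinarith [mul_pos (show (0 : ℝ) < g by linarith) (show (0 : ℝ) < g by linarith)]

end Pool.Agent.Results.MP_5d2e8b_nt.ManyRepresentations
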