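import Pool.Agent.TwR4.Fin

/-!
Infinite sets of positive integers in which every number has at most three representations
`n = a + b`, `a ≤ b`, and with at least `N ^ ((√11 - 1) / 5 - ε)` elements up to `N`, for all
large `N` (`(√11 - 1) / 5 = 0.4633...`).

Proof.  The construction is the one of `TwoRepresentations`: digits given by discrete logarithms of
primes `p` modulo primes `s 0, s 1, ...`; a sum of two elements determines `p v` modulo
`r = s 0 ... s (l-1)` and `p` modulo `w = s l ... s (k-1)` (`p` of class `k`, `v` of class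
`l ≤ k`).  Only one prime is removed for every fourfold coincidence `(p_i, v_i)`, `i = 0, .., 3`.
Put `p_i = p_0 + w e_i`, `p_i v_i = p_0 v_0 + r k_i`,
`k_i (v_j - v_0) - k_j (v_i - v_0) = w t_ij` and `k_i e_j v_j - k_j e_i v_i = - p_0 t_ij`.
If `t_ij = 0`, then `v_j | e_i` and `v_i | e_j` (`dvd_of_zero`); as `|e_i|` is smaller than the
product of two `v`'s, at most one of `t_12, t_13, t_23` is zero (`pivot`).  If `t_12` and `t_13`
are not zero, the coincidence is determined by `k_1, k_2, k_3, t_12, t_13, w, v_0, v_1` (`fib`):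
two solutions give the same `v_2, v_3`, and `v_2 v_3` divides `p_0 e_1' - p_0' e_1`, which is
smaller, so `p_0 = p_0'`.  This gives the count `count4`.
-/

set_option autoImplicit false

namespace Pool.Agent.Results.MP_5d2e8b_nt.ThreeRepresentations

theorem result : ∀ ε : ℝ, 0 < ε → ∃ A : Set ℕ, (∀ a ∈ A, 0 < a) ∧
    (∀ n : ℕ, {x : ℕ × ℕ | x.1 ∈ A ∧ x.2 ∈ A ∧ x.1 ≤ x.2 ∧ x.1 + x.2 = n}.ncard ≤ 3) ∧
    ∃ N₀ : ℕ, ∀ N : ℕ, N₀ ≤ N →
      (N : ℝ) ^ ((√11 - 1) / 5 - ε) ≤ ((A ∩ Set.Icc 1 N).ncard : ℝ) :=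
  fun _ hε => Pool.Agent.TwR4.main4 hε

end Pool.Agent.Results.MP_5d2e8b_nt.ThreeRepresentations
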