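import Pool.Agent.TwR.Fin

/-!
Infinite sets of positive integers in which every number has at most two representations
`n = a + b`, `a ≤ b`, and with at least `N ^ (√6 - 2 - ε)` elements up to `N`, for all large `N`
(`√6 - 2 = 0.4494...`).

Proof.  Ruzsa's and Cilleruelo's digits: `s 0, s 1, ...` are primes, a prime `p` of class `k` gets
the number with the `k` digits `lg (s j) p` (discrete logarithms) in the base `4 s 0, 4 s 1, ...`.
A sum of two such numbers determines `p v` modulo `R = s 0 ... s (l-1)` and `p` modulo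
`W = s l ... s (k-1)`, if `p` is of class `k` and `v` of class `l ≤ k`.  For three different pairs
`(p_i, v_i)` with the same data put `p_i = p_0 + w e_i`, `p_i v_i = p_0 v_0 + r k_i`; then
`k_1 (v_2 - v_0) - k_2 (v_1 - v_0) = w t` and `k_1 e_2 v_2 - k_2 e_1 v_1 = - p_0 t` for an integer
`t`, and the triple coincidences for all choices of the moduli together can be counted
(`Pool.Agent.TwR.count`).  For suitable primes `s j` less than half of the primes of every class
take part in a triple coincidence; they are removed.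
-/

set_option autoImplicit false

namespace Pool.Agent.Results.MP_5d2e8b_nt.TwoRepresentations

theorem result : ∀ ε : ℝ, 0 < ε → ∃ A : Set ℕ, (∀ a ∈ A, 0 < a) ∧
    (∀ n : ℕ, {x : ℕ × ℕ | x.1 ∈ A ∧ x.2 ∈ A ∧ x.1 ≤ x.2 ∧ x.1 + x.2 = n}.ncard ≤ 2) ∧
    ∃ N₀ : ℕ, ∀ N : ℕ, N₀ ≤ N →
      (N : ℝ) ^ (√6 - 2 - ε) ≤ ((A ∩ Set.Icc 1 N).ncard : ℝ) :=
  fun _ hε => Pool.Agent.TwR.main hε

end Pool.Agent.Results.MP_5d2e8b_nt.TwoRepresentations
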